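import Pool.Agent.TreeProfile.Global

namespace Pool.Agent.Results.MP_ed556a_co.YBound

open SimpleGraph Finset Pool.Agent.TreeProfile

theorem desc4 (x : ℕ) : (((x + 1).descFactorial 4 : ℕ) : ℤ) = 4 * cc x * (cc x - 1) := by
  have h := two_cc x
  have h2 : 4 * cc x * (cc x - 1) = ((x : ℤ) * (x - 1)) * ((x : ℤ) * (x - 1) - 2) := by
    rw [← h]; ring
  rw [h2]
  rcases x with _ | _ | _ | n
  · simp [Nat.descFactorial]
  · simp [Nat.descFactorial]
  · simp [Nat.descFactorial]
  · simp only [Nat.descFactorial]
    have e1 : n + 1 + 1 + 1 + 1 - 3 = n + 1 := by omega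
    have e2 : n + 1 + 1 + 1 + 1 - 2 = n + 2 := by omega
    have e3 : n + 1 + 1 + 1 + 1 - 1 = n + 3 := by omega
    rw [e1, e2, e3]
    push_cast
    ring

/-- `Y(T) ≤ 9 S(T) + P(T) + 6` for every tree. -/
theorem result : ∀ (V : Type) [Fintype V] (T : SimpleGraph V), T.IsTree →
    T.copyCount ytree ≤ 9 * T.copyCount star5 + T.copyCount path5 + 6 := by
  intro V _ T hT
  classical
  have hy := y_count T
  rw [labelled_eq, aut_y] at hy
  rcases Nat.lt_or_ge (Fintype.card V) 2 with hn | hn
  · -- at most one vertex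
    have hsub : Subsingleton V := Fintype.card_le_one_iff_subsingleton.mp (by omega)
    have h0 : ∑ v, ∑ b ∈ T.neighborFinset v,
        ((T.degree v - 1) * (T.degree v - 2)) * (T.degree b - 1) = 0 := by
      apply Finset.sum_eq_zero
      intro v _
      apply Finset.sum_eq_zero
      intro b hb
      rw [mem_neighborFinset] at hb
      exact absurd (Subsingleton.elim v b) hb.ne
    rw [h0] at hy
    omega
  · have hs := star_count T
    rw [labelled_eq, aut_star] at hs
    have hp := path_count T hT.isAcyclic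
    rw [labelled_eq, aut_path] at hp
    have hm := main T hT hn
    have hnt : Nontrivial V := Fintype.one_lt_card_iff_nontrivial.mp (by omega)
    have hdeg : ∀ v, 0 < T.degree v :=
      fun v => hT.connected.preconnected.degree_pos_of_nontrivial v
    -- stars
    have hs' : (∑ v, 4 * cc (T.degree v - 1) * (cc (T.degree v - 1) - 1)) ≤
        24 * (T.copyCount star5 : ℤ) := by
      have h1 : (∑ v, 4 * cc (T.degree v - 1) * (cc (T.degree v - 1) - 1)) =
          ((∑ v, (T.degree v).descFactorial 4 : ℕ) : ℤ) := by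
        push_cast
        apply Finset.sum_congr rfl
        intro v _
        rw [← desc4]
        have := hdeg v
        rw [Nat.sub_add_cancel this]
      rw [h1]
      exact_mod_cast hs
    -- paths
    have hp' : (∑ v, ((∑ u ∈ T.neighborFinset v, ((T.degree u - 1 : ℕ) : ℤ)) ^ 2 -
        ∑ u ∈ T.neighborFinset v, ((T.degree u - 1 : ℕ) : ℤ) ^ 2)) ≤
        2 * (T.copyCount path5 : ℤ) := by
      have h1 : (∑ v, ((∑ u ∈ T.neighborFinset v, ((T.degree u - 1 : ℕ) : ℤ)) ^ 2 -
          ∑ u ∈ T.neighborFinset v, ((T.degree u - 1 : ℕ) : ℤ) ^ 2)) =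
          ((∑ v, ∑ q ∈ (T.neighborFinset v).offDiag,
            (T.degree q.1 - 1) * (T.degree q.2 - 1) : ℕ) : ℤ) := by
        rw [Nat.cast_sum]
        apply Finset.sum_congr rfl
        intro v _
        rw [← offDiag_sum, Nat.cast_sum]
        apply Finset.sum_congr rfl
        intro q _
        rw [Nat.cast_mul]
      rw [h1]
      exact_mod_cast hp
    -- Y-trees
    have hy' : 2 * (T.copyCount ytree : ℤ) ≤
        ∑ v, 2 * cc (T.degree v - 1) * ∑ u ∈ T.neighborFinset v, ((T.degree u - 1 : ℕ) : ℤ) := by
      have h1 : (∑ v, 2 * cc (T.degree v - 1) *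
          ∑ u ∈ T.neighborFinset v, ((T.degree u - 1 : ℕ) : ℤ)) =
          ((∑ v, ∑ b ∈ T.neighborFinset v,
            ((T.degree v - 1) * (T.degree v - 2)) * (T.degree b - 1) : ℕ) : ℤ) := by
        rw [Nat.cast_sum]
        apply Finset.sum_congr rfl
        intro v _
        rw [Finset.mul_sum, Nat.cast_sum]
        apply Finset.sum_congr rfl
        intro u _
        rw [two_cc, Nat.cast_mul, Nat.cast_mul]
        congr 1
        obtain ⟨m, hm⟩ : ∃ m, T.degree v = m + 1 := ⟨T.degree v - 1, by have := hdeg v; omega⟩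
        rw [hm]
        rcases m with _ | m
        · simp
        · have e1 : m + 1 + 1 - 1 = m + 1 := by omega
          have e2 : m + 1 + 1 - 2 = m := by omega
          rw [e1, e2]
          push_cast
          ring
      rw [h1]
      exact_mod_cast hy
    have hs3 : (∑ v, 3 * cc (T.degree v - 1) * (cc (T.degree v - 1) - 1)) * 4 =
        3 * (∑ v, 4 * cc (T.degree v - 1) * (cc (T.degree v - 1) - 1)) := by
      rw [Finset.sum_mul, Finset.mul_sum]
      apply Finset.sum_congr rfl
      intro v _
      ring
    omega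

end Pool.Agent.Results.MP_ed556a_co.YBound
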